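import Mathlib
import Pool.Agent.Lib.CG7.Main

set_option autoImplicit false

namespace Pool.Agent.Results.MP_8c8736_nt.NoFiniteAutomaton

/-- `A` is the area of a right triangle with rational sides. -/
def Congruent (A : ℕ) : Prop :=
  ∃ a b c : ℚ, 0 < a ∧ 0 < b ∧ 0 < c ∧ a ^ 2 + b ^ 2 = c ^ 2 ∧ a * b / 2 = A

/-- `n` is the value at a power of `k` of a polynomial of degree at most 5 with integer
coefficients of absolute value at most 6. -/
def Sparse (k n : ℕ) : Prop :=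
  ∃ (N : ℕ) (c : Fin 6 → ℤ), (∀ j, |c j| ≤ 6) ∧ (n : ℤ) = ∑ j, c j * ((k : ℤ) ^ N) ^ (j : ℕ)

theorem result (k : ℕ) (hk : 2 ≤ k) (L : Language ℕ) (hL : L.IsRegular) :
    {n : ℕ | Sparse k n ∧ ¬ (Nat.digits k n ∈ L ↔ Congruent n)}.Infinite ∧
    {n : ℕ | Sparse k n ∧ ¬ ((Nat.digits k n).reverse ∈ L ↔ Congruent n)}.Infinite := by
  constructor
  · refine Set.infinite_of_forall_exists_gt fun B => ?_
    obtain ⟨n, h1, h2, h3⟩ := Pool.Agent.Lib.CG7.main k hk L hL B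
    exact ⟨n, ⟨h2, h3⟩, h1⟩
  · refine Set.infinite_of_forall_exists_gt fun B => ?_
    obtain ⟨n, h1, h2, h3⟩ := Pool.Agent.Lib.CG7.main k hk L.reverse hL.reverse B
    exact ⟨n, ⟨h2, h3⟩, h1⟩

end Pool.Agent.Results.MP_8c8736_nt.NoFiniteAutomaton
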