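import Mathlib
import Pool.Agent.Lib.CGC.Main

set_option autoImplicit false

namespace Pool.Agent.Results.MP_8c8736_nt.NoShallowCircuit

open Pool.Agent.Lib.CGC

/-- Bounded-depth circuits with AND, OR and MOD p gates that decide congruent numbers have
exponential size. -/
theorem result :
    ∀ (p n d : ℕ) (G : Type) [Fintype G] (C : Circuit n G), p.Prime → 1 ≤ n →
      C.Over {AND, OR, MOD p} d →
      (∀ A : ℕ, 0 < A → A < 2 ^ n → (C.Accepts (fun i => A.testBit i) ↔ Congruent A)) →
      (2 : ℝ) ^ ((n : ℝ) ^ (1 / (18 * d + 92) : ℝ) / p) ≤ 32 * n ^ 2 * Fintype.card G :=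
  fun p n d _ _ C hp hn hC h => lower p hp n d hn C hC h

end Pool.Agent.Results.MP_8c8736_nt.NoShallowCircuit
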